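import Mathlib

set_option autoImplicit false

/-!
# Areas of trapezoids with two vertical sides

`Z a b c e` is the set of points `(x, y)` with `0 ≤ x ≤ 1` between the line through `(0, a)`,
`(1, b)` and the line through `(0, c)`, `(1, e)`.
-/

namespace Q137.HullRatio

open MeasureTheory Set

/-- the trapezoid with vertices `(0,a)`, `(1,b)`, `(0,c)`, `(1,e)` -/
def Z (a b c e : ℝ) : Set (ℝ × ℝ) :=
  {p | 0 ≤ p.1 ∧ p.1 ≤ 1 ∧ a * (1 - p.1) + b * p.1 ≤ p.2 ∧ p.2 ≤ c * (1 - p.1) + e * p.1}

theorem Z_convex (a b c e : ℝ) : Convex ℝ (Z a b c e) := by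
  intro p hp q hq s t hs ht hst
  obtain ⟨h1, h2, h3, h4⟩ := hp
  obtain ⟨k1, k2, k3, k4⟩ := hq
  have hs1 : s = 1 - t := by linarith
  refine ⟨?_, ?_, ?_, ?_⟩ <;> simp only [Prod.fst_add, Prod.snd_add, Prod.smul_fst, Prod.smul_snd,
    smul_eq_mul]
  · positivity
  · nlinarith
  · have := mul_le_mul_of_nonneg_left h3 hs
    have := mul_le_mul_of_nonneg_left k3 ht
    subst hs1
    nlinarith
  · have := mul_le_mul_of_nonneg_left h4 hs
    have := mul_le_mul_of_nonneg_left k4 ht
    subst hs1
    nlinarith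

theorem Z_closed (a b c e : ℝ) : IsClosed (Z a b c e) := by
  have : Z a b c e = {p | 0 ≤ p.1} ∩ ({p | p.1 ≤ 1} ∩
      ({p | a * (1 - p.1) + b * p.1 ≤ p.2} ∩ {p | p.2 ≤ c * (1 - p.1) + e * p.1})) := by
    ext p; simp [Z]
  rw [this]
  refine (isClosed_le (by fun_prop) (by fun_prop)).inter
    ((isClosed_le (by fun_prop) (by fun_prop)).inter
    ((isClosed_le (by fun_prop) (by fun_prop)).inter (isClosed_le (by fun_prop) (by fun_prop))))

theorem Z_volume {a b c e : ℝ} (hac : a ≤ c) (hbe : b ≤ e) :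
    volume (Z a b c e) = ENNReal.ofReal ((c - a + (e - b)) / 2) := by
  have hm : MeasurableSet (Z a b c e) := (Z_closed a b c e).measurableSet
  rw [Measure.volume_eq_prod, Measure.prod_apply hm]
  have hslice : ∀ x : ℝ, volume (Prod.mk x ⁻¹' (Z a b c e)) =
      (Icc (0:ℝ) 1).indicator (fun x => ENNReal.ofReal ((c - a) * (1 - x) + (e - b) * x)) x := by
    intro x
    by_cases hx : x ∈ Icc (0:ℝ) 1
    · rw [indicator_of_mem hx]
      have : Prod.mk x ⁻¹' (Z a b c e) = Icc (a * (1 - x) + b * x) (c * (1 - x) + e * x) := by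
        ext y
        simp only [Z, mem_preimage, mem_ofPred_eq, mem_Icc]
        exact ⟨fun h => h.2.2, fun h => ⟨hx.1, hx.2, h⟩⟩
      rw [this, Real.volume_Icc]
      congr 1
      ring
    · rw [indicator_of_notMem hx]
      have : Prod.mk x ⁻¹' (Z a b c e) = ∅ := by
        ext y
        simp only [Z, mem_preimage, mem_ofPred_eq, mem_empty_iff_false, iff_false]
        exact fun h => hx ⟨h.1, h.2.1⟩
      rw [this, measure_empty]
  simp_rw [hslice]
  rw [lintegral_indicator measurableSet_Icc]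
  rw [← ofReal_integral_eq_lintegral_ofReal]
  · rw [integral_Icc_eq_integral_Ioc, ← intervalIntegral.integral_of_le zero_le_one]
    congr 1
    rw [intervalIntegral.integral_add (by apply Continuous.intervalIntegrable; fun_prop)
      (by apply Continuous.intervalIntegrable; fun_prop)]
    rw [intervalIntegral.integral_const_mul, intervalIntegral.integral_const_mul,
      intervalIntegral.integral_sub (by apply Continuous.intervalIntegrable; fun_prop)
      (by apply Continuous.intervalIntegrable; fun_prop)]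
    simp [integral_id]
    ring
  · apply Continuous.integrableOn_Icc
    fun_prop
  · filter_upwards [ae_restrict_mem measurableSet_Icc] with x hx
    have := hx.1
    have := hx.2
    have h1 : 0 ≤ c - a := by linarith
    have h2 : 0 ≤ e - b := by linarith
    have h3 : 0 ≤ 1 - x := by linarith
    positivity

theorem Z_subset_of_convex {a b c e : ℝ} {H : Set (ℝ × ℝ)} (hH : Convex ℝ H)
    (h1 : ((0:ℝ), a) ∈ H) (h2 : ((1:ℝ), b) ∈ H) (h3 : ((0:ℝ), c) ∈ H) (h4 : ((1:ℝ), e) ∈ H) :
    Z a b c e ⊆ H := by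
  rintro ⟨x, y⟩ ⟨hx0, hx1, hy1, hy2⟩
  simp only at hx0 hx1 hy1 hy2
  have hlow : (x, a * (1 - x) + b * x) ∈ H := by
    have := hH h1 h2 (sub_nonneg.2 hx1) hx0 (by ring)
    convert this using 1
    ext
    · simp
    · simp; ring
  have hup : (x, c * (1 - x) + e * x) ∈ H := by
    have := hH h3 h4 (sub_nonneg.2 hx1) hx0 (by ring)
    convert this using 1
    ext
    · simp
    · simp; ring
  rcases eq_or_lt_of_le (hy1.trans hy2) with heq | hlt
  · have : y = a * (1 - x) + b * x := le_antisymm (heq ▸ hy2) hy1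
    rw [this]; exact hlow
  · set f := a * (1 - x) + b * x
    set g := c * (1 - x) + e * x
    have hgf : 0 < g - f := by linarith
    have := hH hlow hup (a := (g - y) / (g - f)) (b := (y - f) / (g - f))
      (by apply div_nonneg <;> linarith) (by apply div_nonneg <;> linarith)
      (by field_simp; ring)
    convert this using 1
    ext
    · simp only [Prod.fst_add, Prod.smul_fst, smul_eq_mul]
      field_simp
      ring
    · simp only [Prod.snd_add, Prod.smul_snd, smul_eq_mul]
      field_simp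
      ring

/-- area of the convex hull of a finite set of points -/
noncomputable def hullArea (A : Finset (ℝ × ℝ)) : ℝ :=
  (volume (convexHull ℝ (A : Set (ℝ × ℝ)))).toReal

theorem hull_lt_top (A : Finset (ℝ × ℝ)) : volume (convexHull ℝ (A : Set (ℝ × ℝ))) < ⊤ :=
  (A.finite_toSet.isCompact_convexHull ℝ).measure_lt_top

theorem hullArea_nonneg (A : Finset (ℝ × ℝ)) : 0 ≤ hullArea A := ENNReal.toReal_nonneg

theorem hullArea_mono {A B : Finset (ℝ × ℝ)} (h : A ⊆ B) : hullArea A ≤ hullArea B := by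
  apply ENNReal.toReal_mono (hull_lt_top B).ne
  exact measure_mono (convexHull_mono (by exact_mod_cast h))

theorem hullArea_le {a b c e : ℝ} (hac : a ≤ c) (hbe : b ≤ e) {A : Finset (ℝ × ℝ)}
    (h : ∀ p ∈ A, p ∈ Z a b c e) : hullArea A ≤ (c - a + (e - b)) / 2 := by
  have hsub : convexHull ℝ (A : Set (ℝ × ℝ)) ⊆ Z a b c e :=
    convexHull_min (fun p hp => h p (by exact_mod_cast hp)) (Z_convex a b c e)
  have := measure_mono (μ := volume) hsub
  rw [Z_volume hac hbe] at this
  have h2 := ENNReal.toReal_mono ENNReal.ofReal_ne_top this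
  rwa [ENNReal.toReal_ofReal (by linarith)] at h2

theorem le_hullArea {a b c e : ℝ} (hac : a ≤ c) (hbe : b ≤ e) {A : Finset (ℝ × ℝ)}
    (h1 : ((0:ℝ), a) ∈ A) (h2 : ((1:ℝ), b) ∈ A) (h3 : ((0:ℝ), c) ∈ A) (h4 : ((1:ℝ), e) ∈ A) :
    (c - a + (e - b)) / 2 ≤ hullArea A := by
  have hsub : Z a b c e ⊆ convexHull ℝ (A : Set (ℝ × ℝ)) :=
    Z_subset_of_convex (convex_convexHull ℝ _)
      (subset_convexHull ℝ _ (by exact_mod_cast h1)) (subset_convexHull ℝ _ (by exact_mod_cast h2))
      (subset_convexHull ℝ _ (by exact_mod_cast h3)) (subset_convexHull ℝ _ (by exact_mod_cast h4))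
  have := measure_mono (μ := volume) hsub
  rw [Z_volume hac hbe] at this
  have h5 := ENNReal.toReal_mono (hull_lt_top A).ne this
  rwa [ENNReal.toReal_ofReal (by linarith)] at h5

theorem hullArea_line {A : Finset (ℝ × ℝ)} (h : ∀ p ∈ A, p.1 = 0) : hullArea A = 0 := by
  have hsub : convexHull ℝ (A : Set (ℝ × ℝ)) ⊆ ({0} : Set ℝ) ×ˢ univ := by
    apply convexHull_min
    · intro p hp
      exact ⟨h p (by exact_mod_cast hp), mem_univ _⟩
    · exact (convex_singleton 0).prod convex_univ
  have hz : volume (({0} : Set ℝ) ×ˢ (univ : Set ℝ)) = 0 := by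
    rw [Measure.volume_eq_prod, Measure.prod_prod]
    simp
  unfold hullArea
  rw [measure_mono_null hsub hz]
  rfl

end Q137.HullRatio
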