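import Mathlib
import Pool.Agent.Q137.HullRatio.Basic

set_option autoImplicit false

/-!
# Ratio of largest to smallest positive hull area: clustered points on a line and one point off it
-/

namespace Q137.HullRatio

open MeasureTheory Set

/-- largest hull area of a `k`-subset -/
noncomputable def bigT (k : ℕ) (S : Finset (ℝ × ℝ)) : ℝ :=
  sSup {a : ℝ | ∃ A ∈ S.powersetCard k, a = hullArea A}

/-- smallest positive hull area of a `k`-subset -/
noncomputable def smallT (k : ℕ) (S : Finset (ℝ × ℝ)) : ℝ :=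
  sInf {a : ℝ | 0 < a ∧ ∃ A ∈ S.powersetCard k, a = hullArea A}

/-- the two-line set -/
noncomputable def twoLines (n : ℕ) : Finset (ℝ × ℝ) :=
  (Finset.range ((n - 1) / 2 + 1)).image (fun j : ℕ => ((0:ℝ), (j:ℝ))) ∪
    (Finset.range ((n - 2) / 2 + 1)).image (fun j : ℕ => ((1:ℝ), (j:ℝ)))

theorem finite_areas (k : ℕ) (S : Finset (ℝ × ℝ)) :
    {a : ℝ | ∃ A ∈ S.powersetCard k, a = hullArea A}.Finite := by
  apply ((S.powersetCard k).finite_toSet.image hullArea).subset
  rintro a ⟨A, hA, rfl⟩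
  exact ⟨A, by exact_mod_cast hA, rfl⟩

theorem le_bigT {k : ℕ} {S A : Finset (ℝ × ℝ)} (hA : A ⊆ S) (hk : A.card = k) :
    hullArea A ≤ bigT k S :=
  le_csSup (finite_areas k S).bddAbove ⟨A, Finset.mem_powersetCard.2 ⟨hA, hk⟩, rfl⟩

theorem smallT_le {k : ℕ} {S A : Finset (ℝ × ℝ)} (hA : A ⊆ S) (hk : A.card = k)
    (hpos : 0 < hullArea A) : smallT k S ≤ hullArea A :=
  csInf_le ⟨0, fun _ h => h.1.le⟩ ⟨hpos, A, Finset.mem_powersetCard.2 ⟨hA, hk⟩, rfl⟩

theorem smallT_pos {k : ℕ} {S A : Finset (ℝ × ℝ)} (hA : A ⊆ S) (hk : A.card = k)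
    (hpos : 0 < hullArea A) : 0 < smallT k S := by
  have hne : {a : ℝ | 0 < a ∧ ∃ A ∈ S.powersetCard k, a = hullArea A}.Nonempty :=
    ⟨_, hpos, A, Finset.mem_powersetCard.2 ⟨hA, hk⟩, rfl⟩
  have hfin : {a : ℝ | 0 < a ∧ ∃ A ∈ S.powersetCard k, a = hullArea A}.Finite :=
    (finite_areas k S).subset fun a h => h.2
  exact (hne.csInf_mem hfin).1

theorem smallT_ge {k : ℕ} {S A : Finset (ℝ × ℝ)} (hA : A ⊆ S) (hk : A.card = k)
    (hpos : 0 < hullArea A) {m : ℝ}
    (h : ∀ B : Finset (ℝ × ℝ), B ⊆ S → B.card = k → 0 < hullArea B → m ≤ hullArea B) :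
    m ≤ smallT k S := by
  refine le_csInf ⟨hullArea A, hpos, A, Finset.mem_powersetCard.2 ⟨hA, hk⟩, rfl⟩ ?_
  rintro a ⟨ha, B, hB, rfl⟩
  rw [Finset.mem_powersetCard] at hB
  exact h B hB.1 hB.2 ha

theorem bigT_le {k : ℕ} {S : Finset (ℝ × ℝ)} (hk : k ≤ S.card) {m : ℝ}
    (h : hullArea S ≤ m) :
    bigT k S ≤ m := by
  obtain ⟨A, hA, hc⟩ := Finset.exists_subset_card_eq hk
  refine csSup_le ⟨hullArea A, A, Finset.mem_powersetCard.2 ⟨hA, hc⟩, rfl⟩ ?_
  rintro a ⟨B, hB, rfl⟩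
  rw [Finset.mem_powersetCard] at hB
  exact (hullArea_mono hB.1).trans h

theorem twoLines_card {n : ℕ} (hn : 2 ≤ n) : (twoLines n).card = n := by
  unfold twoLines
  rw [Finset.card_union_of_disjoint, Finset.card_image_of_injective, Finset.card_image_of_injective]
  · simp only [Finset.card_range]
    omega
  · intro i j h
    simpa using h
  · intro i j h
    simpa using h
  · rw [Finset.disjoint_left]
    intro p hp hq
    simp only [Finset.mem_image, Finset.mem_range] at hp hq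
    obtain ⟨i, -, rfl⟩ := hp
    obtain ⟨j, -, hj⟩ := hq
    simp at hj

theorem twoLines_mono {k n : ℕ} (h : k ≤ n) : twoLines k ⊆ twoLines n := by
  unfold twoLines
  apply Finset.union_subset_union
  · apply Finset.image_subset_image
    intro i hi
    rw [Finset.mem_range] at hi ⊢
    omega
  · apply Finset.image_subset_image
    intro i hi
    rw [Finset.mem_range] at hi ⊢
    omega

theorem mem_twoLines_zero {n j : ℕ} (hj : j ≤ (n - 1) / 2) : ((0:ℝ), (j:ℝ)) ∈ twoLines n := by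
  unfold twoLines
  rw [Finset.mem_union]
  left
  exact Finset.mem_image.2 ⟨j, Finset.mem_range.2 (by omega), rfl⟩

theorem mem_twoLines_one {n j : ℕ} (hj : j ≤ (n - 2) / 2) : ((1:ℝ), (j:ℝ)) ∈ twoLines n := by
  unfold twoLines
  rw [Finset.mem_union]
  right
  exact Finset.mem_image.2 ⟨j, Finset.mem_range.2 (by omega), rfl⟩

theorem sum_halves {n : ℕ} (hn : 2 ≤ n) :
    (((n - 1) / 2 : ℕ) : ℝ) + (((n - 2) / 2 : ℕ) : ℝ) = (n : ℝ) - 2 := by
  have : (n - 1) / 2 + (n - 2) / 2 + 2 = n := by omega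
  have h2 : (((n - 1) / 2 + (n - 2) / 2 + 2 : ℕ) : ℝ) = (n : ℝ) := by exact_mod_cast this
  push_cast at h2
  linarith

theorem hullArea_twoLines {n : ℕ} (hn : 2 ≤ n) : hullArea (twoLines n) = ((n:ℝ) - 2) / 2 := by
  have hs := sum_halves hn
  apply le_antisymm
  · have := hullArea_le (a := 0) (b := 0) (c := (((n - 1) / 2 : ℕ) : ℝ))
      (e := (((n - 2) / 2 : ℕ) : ℝ)) (by positivity) (by positivity) (A := twoLines n) ?_
    · linarith
    · intro p hp
      unfold twoLines at hp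
      simp only [Finset.mem_union, Finset.mem_image, Finset.mem_range] at hp
      rcases hp with ⟨j, hj, rfl⟩ | ⟨j, hj, rfl⟩
      · have : (j : ℝ) ≤ (((n - 1) / 2 : ℕ) : ℝ) := by exact_mod_cast Nat.lt_succ_iff.1 hj
        refine ⟨?_, ?_, ?_, ?_⟩ <;> simp
        exact_mod_cast Nat.lt_succ_iff.1 hj
      · refine ⟨?_, ?_, ?_, ?_⟩ <;> simp
        exact_mod_cast Nat.lt_succ_iff.1 hj
  · have := le_hullArea (a := 0) (b := 0) (c := (((n - 1) / 2 : ℕ) : ℝ))
      (e := (((n - 2) / 2 : ℕ) : ℝ)) (by positivity) (by positivity) (A := twoLines n)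
      (by simpa using mem_twoLines_zero (n := n) (j := 0) (Nat.zero_le _))
      (by simpa using mem_twoLines_one (n := n) (j := 0) (Nat.zero_le _))
      (mem_twoLines_zero le_rfl) (mem_twoLines_one le_rfl)
    linarith

/-- `T_k(S_n) ≥ (n - 2) / 2` -/
theorem bigT_twoLines {k n : ℕ} (hk : 4 ≤ k) (hn : k ≤ n) :
    ((n:ℝ) - 2) / 2 ≤ bigT k (twoLines n) := by
  have hs := sum_halves (n := n) (by omega)
  set C : Finset (ℝ × ℝ) := {((0:ℝ), (0:ℝ)), ((1:ℝ), (0:ℝ)), ((0:ℝ), (((n - 1) / 2 : ℕ) : ℝ)),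
    ((1:ℝ), (((n - 2) / 2 : ℕ) : ℝ))} with hC
  have h1 : ((0:ℝ), (0:ℝ)) ∈ twoLines n := by
    simpa using mem_twoLines_zero (n := n) (j := 0) (Nat.zero_le _)
  have h2 : ((1:ℝ), (0:ℝ)) ∈ twoLines n := by
    simpa using mem_twoLines_one (n := n) (j := 0) (Nat.zero_le _)
  have h3 := mem_twoLines_zero (n := n) (j := (n - 1) / 2) le_rfl
  have h4 := mem_twoLines_one (n := n) (j := (n - 2) / 2) le_rfl
  have hCs : C ⊆ twoLines n := by
    intro p hp
    simp only [hC, Finset.mem_insert, Finset.mem_singleton] at hp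
    rcases hp with rfl | rfl | rfl | rfl
    · exact h1
    · exact h2
    · exact h3
    · exact h4
  have hCc : C.card ≤ k := by
    refine le_trans ?_ hk
    exact Finset.card_le_four
  obtain ⟨A, hCA, hA, hcard⟩ := Finset.exists_subsuperset_card_eq hCs hCc
    (by rw [twoLines_card (by omega)]; exact hn)
  refine le_trans ?_ (le_bigT hA hcard)
  have := le_hullArea (a := 0) (b := 0) (c := (((n - 1) / 2 : ℕ) : ℝ))
      (e := (((n - 2) / 2 : ℕ) : ℝ)) (by positivity) (by positivity) (A := A)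
      (hCA (by simp [hC])) (hCA (by simp [hC])) (hCA (by simp [hC])) (hCA (by simp [hC]))
  linarith

theorem smallT_twoLines {k n : ℕ} (hk : 4 ≤ k) (hn : k ≤ n) :
    0 < smallT k (twoLines n) ∧ smallT k (twoLines n) ≤ ((k:ℝ) - 2) / 2 := by
  have h1 := hullArea_twoLines (n := k) (by omega)
  have hk' : (4:ℝ) ≤ k := by exact_mod_cast hk
  have hpos : 0 < hullArea (twoLines k) := by rw [h1]; linarith
  have hcard := twoLines_card (n := k) (by omega)
  refine ⟨smallT_pos (twoLines_mono hn) hcard hpos, ?_⟩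
  rw [← h1]
  exact smallT_le (twoLines_mono hn) hcard hpos

theorem ratio_twoLines {k n : ℕ} (hk : 4 ≤ k) (hn : k ≤ n) :
    ((n:ℝ) - 2) / ((k:ℝ) - 2) ≤ bigT k (twoLines n) / smallT k (twoLines n) := by
  obtain ⟨h1, h2⟩ := smallT_twoLines hk hn
  have h3 := bigT_twoLines hk hn
  have hk' : (4:ℝ) ≤ k := by exact_mod_cast hk
  have hn' : (k:ℝ) ≤ n := by exact_mod_cast hn
  rw [div_le_div_iff₀ (by linarith) h1]
  have h4 : ((n:ℝ) - 2) * smallT k (twoLines n) ≤ ((n:ℝ) - 2) * (((k:ℝ) - 2) / 2) :=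
    mul_le_mul_of_nonneg_left h2 (by linarith)
  have h5 : ((n:ℝ) - 2) / 2 * ((k:ℝ) - 2) ≤ bigT k (twoLines n) * ((k:ℝ) - 2) :=
    mul_le_mul_of_nonneg_right h3 (by linarith)
  linarith

/-! ### the clustered set -/

/-- heights of the points on the line -/
noncomputable def ht (k : ℕ) (ε : ℝ) (i : ℕ) : ℝ := ((i / (k - 2) : ℕ) : ℝ) + ε * i

theorem ht_strictMono {k : ℕ} {ε : ℝ} (hε : 0 < ε) : StrictMono (ht k ε) := by
  intro i j hij
  unfold ht
  have h1 : ((i / (k - 2) : ℕ) : ℝ) ≤ ((j / (k - 2) : ℕ) : ℝ) := by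
    exact_mod_cast Nat.div_le_div_right hij.le
  have h2 : (i : ℝ) < j := by exact_mod_cast hij
  have h3 := mul_lt_mul_of_pos_left h2 hε
  linarith

theorem ht_gap {k : ℕ} (hk : 4 ≤ k) {ε : ℝ} (hε : 0 < ε) {i j : ℕ} (hij : i + (k - 2) ≤ j) :
    1 ≤ ht k ε j - ht k ε i := by
  unfold ht
  have h0 : i / (k - 2) + 1 ≤ j / (k - 2) := by
    have : (i + (k - 2)) / (k - 2) = i / (k - 2) + 1 := Nat.add_div_right i (by omega)
    rw [← this]
    exact Nat.div_le_div_right hij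
  have h1 : ((i / (k - 2) : ℕ) : ℝ) + 1 ≤ ((j / (k - 2) : ℕ) : ℝ) := by
    exact_mod_cast h0
  have h2 : (i : ℝ) ≤ j := by exact_mod_cast (by omega : i ≤ j)
  have h3 := mul_le_mul_of_nonneg_left h2 hε.le
  linarith

/-- `n - 1` points on the line `x = 0` and the point `(1, 0)` -/
noncomputable def cluster (k n : ℕ) (ε : ℝ) : Finset (ℝ × ℝ) :=
  insert ((1:ℝ), (0:ℝ)) ((Finset.range (n - 1)).image (fun i : ℕ => ((0:ℝ), ht k ε i)))

theorem cluster_card {k n : ℕ} (hn : 1 ≤ n) {ε : ℝ} (hε : 0 < ε) : (cluster k n ε).card = n := by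
  unfold cluster
  rw [Finset.card_insert_of_notMem, Finset.card_image_of_injective, Finset.card_range]
  · omega
  · intro i j h
    exact (ht_strictMono hε).injective (by simpa using h)
  · simp

theorem cluster_off {k n : ℕ} {ε : ℝ} : ((1:ℝ), (0:ℝ)) ∈ cluster k n ε := by
  simp [cluster]

theorem cluster_on {k n : ℕ} {ε : ℝ} {i : ℕ} (hi : i < n - 1) :
    ((0:ℝ), ht k ε i) ∈ cluster k n ε := by
  unfold cluster
  exact Finset.mem_insert_of_mem (Finset.mem_image.2 ⟨i, Finset.mem_range.2 hi, rfl⟩)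

theorem cluster_not_collinear {k n : ℕ} (hn : 3 ≤ n) {ε : ℝ} (hε : 0 < ε) :
    ¬ Collinear ℝ (cluster k n ε : Set (ℝ × ℝ)) := by
  intro h
  rw [collinear_iff_of_mem (p₀ := ((0:ℝ), ht k ε 0))
    (by exact_mod_cast cluster_on (by omega))] at h
  obtain ⟨v, hv⟩ := h
  obtain ⟨r, hr⟩ := hv ((0:ℝ), ht k ε 1) (by exact_mod_cast cluster_on (by omega))
  obtain ⟨s, hs⟩ := hv ((1:ℝ), (0:ℝ)) (by exact_mod_cast cluster_off)
  have h1 := congrArg Prod.fst hr
  have h2 := congrArg Prod.snd hr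
  have h3 := congrArg Prod.fst hs
  simp only [vadd_eq_add, Prod.fst_add, Prod.snd_add, Prod.smul_fst, Prod.smul_snd,
    smul_eq_mul, add_zero] at h1 h2 h3
  have h4 := ht_strictMono (k := k) hε (show 0 < 1 by norm_num)
  rcases mul_eq_zero.1 h1.symm with h | h
  · rw [h] at h2
    linarith
  · rw [h] at h3
    norm_num at h3

theorem hullArea_cluster {k n : ℕ} (hn : 2 ≤ n) {ε : ℝ} (hε : 0 < ε) :
    hullArea (cluster k n ε) ≤ ((((n - 2) / (k - 2) : ℕ) : ℝ) + ε * n) / 2 := by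
  have hpos : 0 ≤ ht k ε (n - 2) := by unfold ht; positivity
  have h1 := hullArea_le (a := 0) (b := 0) (c := ht k ε (n - 2)) (e := 0) hpos le_rfl
    (A := cluster k n ε) ?_
  · have h2 : ht k ε (n - 2) ≤ (((n - 2) / (k - 2) : ℕ) : ℝ) + ε * n := by
      unfold ht
      have : ((n - 2 : ℕ) : ℝ) ≤ n := by exact_mod_cast (by omega : n - 2 ≤ n)
      have := mul_le_mul_of_nonneg_left this hε.le
      linarith
    linarith
  · intro p hp
    unfold cluster at hp
    simp only [Finset.mem_insert, Finset.mem_image, Finset.mem_range] at hp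
    rcases hp with rfl | ⟨i, hi, rfl⟩
    · refine ⟨?_, ?_, ?_, ?_⟩ <;> simp
    · have h3 : ht k ε i ≤ ht k ε (n - 2) := (ht_strictMono hε).monotone (by omega)
      have h4 : 0 ≤ ht k ε i := by unfold ht; positivity
      refine ⟨?_, ?_, ?_, ?_⟩ <;> simp [h3, h4]

theorem cluster_area_ge {k n : ℕ} (hk : 4 ≤ k) {ε : ℝ} (hε : 0 < ε)
    {B : Finset (ℝ × ℝ)} (hB : B ⊆ cluster k n ε) (hc : B.card = k) (hpos : 0 < hullArea B) :
    1 / 2 ≤ hullArea B := by
  have hoff : ((1:ℝ), (0:ℝ)) ∈ B := by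
    by_contra hcon
    have : hullArea B = 0 := by
      apply hullArea_line
      intro p hp
      have := hB hp
      unfold cluster at this
      simp only [Finset.mem_insert, Finset.mem_image, Finset.mem_range] at this
      rcases this with rfl | ⟨i, hi, rfl⟩
      · exact absurd hp hcon
      · rfl
    linarith
  set I : Finset ℕ := (Finset.range (n - 1)).filter (fun i => ((0:ℝ), ht k ε i) ∈ B) with hI
  have hcover : B ⊆ insert ((1:ℝ), (0:ℝ)) (I.image (fun i : ℕ => ((0:ℝ), ht k ε i))) := by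
    intro p hp
    have := hB hp
    unfold cluster at this
    simp only [Finset.mem_insert, Finset.mem_image, Finset.mem_range] at this ⊢
    rcases this with rfl | ⟨i, hi, rfl⟩
    · left; rfl
    · right
      exact ⟨i, by rw [hI, Finset.mem_filter, Finset.mem_range]; exact ⟨hi, hp⟩, rfl⟩
  have hcardI : k ≤ I.card + 1 := by
    have h1 := Finset.card_le_card hcover
    have h2 := Finset.card_insert_le ((1:ℝ), (0:ℝ)) (I.image (fun i : ℕ => ((0:ℝ), ht k ε i)))
    have h3 := Finset.card_image_le (s := I) (f := fun i : ℕ => ((0:ℝ), ht k ε i))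
    omega
  have hIne : I.Nonempty := by
    rw [← Finset.card_pos]; omega
  set i := I.min' hIne
  set j := I.max' hIne
  have hsub : I ⊆ Finset.Icc i j := fun x hx =>
    Finset.mem_Icc.2 ⟨Finset.min'_le _ _ hx, Finset.le_max' _ _ hx⟩
  have hcardI' := Finset.card_le_card hsub
  rw [Nat.card_Icc] at hcardI'
  have hgap := ht_gap hk hε (i := i) (j := j) (by omega)
  have hi : ((0:ℝ), ht k ε i) ∈ B := (Finset.mem_filter.1 (I.min'_mem hIne)).2
  have hj : ((0:ℝ), ht k ε j) ∈ B := (Finset.mem_filter.1 (I.max'_mem hIne)).2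
  have := le_hullArea (a := ht k ε i) (b := 0) (c := ht k ε j) (e := 0) (by linarith) le_rfl
    hi hoff hj hoff
  linarith

theorem exists_pos_subset {k n : ℕ} (hk : 4 ≤ k) (hn : k ≤ n) {ε : ℝ} (hε : 0 < ε) :
    ∃ A : Finset (ℝ × ℝ), A ⊆ cluster k n ε ∧ A.card = k ∧ 0 < hullArea A := by
  set C : Finset (ℝ × ℝ) := {((1:ℝ), (0:ℝ)), ((0:ℝ), ht k ε 0), ((0:ℝ), ht k ε 1)} with hC
  have hCs : C ⊆ cluster k n ε := by
    intro p hp
    simp only [hC, Finset.mem_insert, Finset.mem_singleton] at hp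
    rcases hp with rfl | rfl | rfl
    · exact cluster_off
    · exact cluster_on (by omega)
    · exact cluster_on (by omega)
  have hCc : C.card ≤ k := by
    refine le_trans ?_ (show 3 ≤ k by omega)
    exact Finset.card_le_three
  obtain ⟨A, hCA, hA, hcard⟩ := Finset.exists_subsuperset_card_eq hCs hCc
    (by rw [cluster_card (by omega) hε]; exact hn)
  refine ⟨A, hA, hcard, ?_⟩
  have h4 := ht_strictMono (k := k) hε (show 0 < 1 by norm_num)
  have := le_hullArea (a := ht k ε 0) (b := 0) (c := ht k ε 1) (e := 0) h4.le le_rfl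
    (A := A) (hCA (by simp [hC])) (hCA (by simp [hC])) (hCA (by simp [hC])) (hCA (by simp [hC]))
  linarith

theorem ratio_cluster {k n : ℕ} (hk : 4 ≤ k) (hn : k ≤ n) {ε : ℝ} (hε : 0 < ε) :
    bigT k (cluster k n ε) / smallT k (cluster k n ε) ≤
      (((n - 2) / (k - 2) : ℕ) : ℝ) + ε * n := by
  obtain ⟨A, hA, hAc, hpos⟩ := exists_pos_subset hk hn hε
  have h1 : 1 / 2 ≤ smallT k (cluster k n ε) :=
    smallT_ge hA hAc hpos (fun B hB hc hp => cluster_area_ge hk hε hB hc hp)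
  have h2 : bigT k (cluster k n ε) ≤ ((((n - 2) / (k - 2) : ℕ) : ℝ) + ε * n) / 2 :=
    bigT_le (by rw [cluster_card (by omega) hε]; exact hn) (hullArea_cluster (by omega) hε)
  have h3 : 0 ≤ (((n - 2) / (k - 2) : ℕ) : ℝ) + ε * n := by positivity
  rw [div_le_iff₀ (by linarith)]
  nlinarith

theorem smallT_nonneg (k : ℕ) (S : Finset (ℝ × ℝ)) : 0 ≤ smallT k S :=
  Real.sInf_nonneg fun _ h => h.1.le

theorem bigT_nonneg (k : ℕ) (S : Finset (ℝ × ℝ)) : 0 ≤ bigT k S := by
  apply Real.sSup_nonneg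
  rintro a ⟨A, -, rfl⟩
  exact hullArea_nonneg A

end Q137.HullRatio
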